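import Pool.Agent.H1.KGR.MNC
import Pool.Agent.H1.KGR.QMD
import Pool.Agent.H11.KGR.UNQ
import Pool.Agent.H12.KGR.HMI
import Pool.Agent.H13.KGR.MC3
import Pool.Agent.H17.KGR.EXB
import Pool.Agent.H17.KGR.GSA
import Pool.Agent.H17.KGR.GTQ
import Pool.Agent.H19.KGR.CTD
import Pool.Agent.H19.KGR.QTY
import Pool.Agent.H19.KGR.RSA
import Pool.Agent.H20.KGR.CFL
import Pool.Agent.H23.KGR.ABN
import Pool.Agent.H23.KGR.AHM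
import Pool.Agent.H23.KGR.FI1
import Pool.Agent.H23.KGR.PRD
import Pool.Agent.H35.KGR.MD2
import Pool.Agent.H36.KGR.AL1
import Pool.Agent.H36.KGR.AL2
import Pool.Agent.H36.KGR.ARI
import Pool.Agent.H36.KGR.QGP
import Pool.Agent.H36.KGR.SIU
import Pool.Agent.H39.KGR.ZFT
import Pool.Agent.H4.KGR.KUN
import Pool.Agent.H42.KG.FCJ
import Pool.Agent.H48.KGR.IND
import Pool.Agent.H48.KGR.NAC
import Pool.Agent.H48.KGR.PLB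
import Pool.Agent.H49.KG.DLB
import Pool.Agent.H49.KG.EXC
import Pool.Agent.H49.KG.NTF
import Pool.Agent.H49.KG.SMA
import Pool.Agent.H50.KGR.FRD
import Pool.Agent.H50.KGR.REG
import Pool.Agent.H50.KGR.SSR
import Pool.Agent.H51.KG.UNI
import Pool.Agent.H52.KG.CLI
import Pool.Agent.H52.KG.GTO
import Pool.Agent.H52.KG.RSB
import Pool.Agent.H53.KGR.EXA
import Pool.Agent.H53.KGR.NTR
import Pool.Agent.H53.KGR.QMN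
import Pool.Agent.H60.KGR.PWR
import Pool.Agent.H60.KGR.RPR
import Pool.Agent.H63.KG.ADT
import Pool.Agent.H65.KGR.IN0
import Pool.Agent.H65.KGR.SIM
import Pool.Agent.H66.KGR.NPI
import Pool.Agent.H66.KGR.SIR
import Pool.Agent.H7.KGR.CLB
import Pool.Agent.H7.KGR.PBD
import Pool.Agent.H77.KG.Targets
import Pool.Agent.H77.KG.Targets2
import Pool.Agent.H77.KGR.MAN
import Pool.Agent.H77.KGR.MD1
import Pool.Agent.H77.KGR.MOD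
import Pool.Agent.H8.KGR.GTA
import Pool.Agent.H8.KGR.MC
import Pool.Agent.H83.KGR.BRU
import Pool.Agent.H83.KGR.NEL
import Pool.Agent.H87.KG.ORB
import Pool.Agent.H87.KG.SBM
import Pool.Agent.H89.KG.RON
import Pool.Agent.H91.KG.AUT
import Pool.Agent.H91.KG.CLA
import Pool.Agent.H94.KGR.MEX

/-!
# Assembly (board kgr_modules)
-/

set_option autoImplicit false

open Set Pool.Agent.H77.BC Pool.Agent.H77.KG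

namespace Pool.Agent.H77.KGS

theorem a_EXA : T_EXA :=
  Pool.Agent.H53.KGR.pf_EXA 

theorem a_EXB : T_EXB :=
  Pool.Agent.H17.KGR.pf_EXB a_EXA

theorem a_QTY : T_QTY :=
  Pool.Agent.H19.KGR.pf_QTY a_EXA a_EXB

theorem a_QGP : T_QGP :=
  Pool.Agent.H36.KGR.pf_QGP a_QTY a_EXA a_EXB

theorem a_EXC : T_EXC :=
  Pool.Agent.H77.KG.pf_EXC 

theorem a_QMN : T_QMN :=
  Pool.Agent.H53.KGR.pf_QMN a_QTY a_QGP a_EXA a_EXB a_EXC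

theorem a_CCE : T_CCE :=
  Pool.Agent.H87.KG.pf_CCE 

theorem a_ORB : T_ORB :=
  Pool.Agent.H87.KG.pf_ORB 

theorem a_FCO : T_FCO :=
  Pool.Agent.H87.KG.pf_FCO a_ORB

theorem a_FCJ : T_FCJ :=
  Pool.Agent.H42.KG.pf_FCJ 

theorem a_HMI : T_HMI :=
  Pool.Agent.H12.KGR.pf_HMI 

theorem a_FRD : T_FRD :=
  Pool.Agent.H50.KGR.pf_FRD a_QMN a_CCE a_FCO a_FCJ a_EXA a_EXB a_HMI a_ORB

theorem a_CTD : T_CTD :=
  Pool.Agent.H19.KGR.pf_CTD 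

theorem a_PRD : T_PRD :=
  Pool.Agent.H23.KGR.pf_PRD a_CTD

theorem a_RPR : T_RPR :=
  Pool.Agent.H60.KGR.pf_RPR a_PRD

theorem a_PBD : T_PBD :=
  Pool.Agent.H7.KGR.pf_PBD a_PRD a_RPR a_HMI

theorem a_ARI : T_ARI :=
  Pool.Agent.H36.KGR.pf_ARI 

theorem a_RSA : T_RSA :=
  Pool.Agent.H19.KGR.pf_RSA 

theorem a_RSB : T_RSB :=
  Pool.Agent.H52.KG.pf_RSB a_RSA

theorem a_NAC : T_NAC :=
  Pool.Agent.H48.KGR.pf_NAC a_RSB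

theorem a_SBM : T_SBM :=
  Pool.Agent.H87.KG.pf_SBM 

theorem a_SSR : T_SSR :=
  Pool.Agent.H50.KGR.pf_SSR a_PRD a_RPR a_PBD a_ARI a_NAC a_SBM a_ORB

theorem a_PWR : T_PWR :=
  Pool.Agent.H60.KGR.pf_PWR 

theorem a_GTA : T_GTA :=
  Pool.Agent.H8.KGR.pf_GTA a_PWR

theorem a_GTM : T_GTM :=
  Pool.Agent.H8.KGR.pf_GTM a_PWR

theorem a_NTF : T_NTF :=
  Pool.Agent.H77.KG.pf_NTF 

theorem a_RON : T_RON :=
  Pool.Agent.H89.KG.pf_RON a_NTF a_FCJ a_PWR a_ORB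

theorem a_NTR : T_NTR :=
  Pool.Agent.H53.KGR.pf_NTR 

theorem a_FI1 : T_FI1 :=
  Pool.Agent.H23.KGR.pf_FI1 a_FRD a_SSR a_GTA a_GTM a_RON a_NTR a_EXA a_EXB

theorem a_ABN : T_ABN :=
  Pool.Agent.H23.KGR.pf_ABN a_CTD a_CCE a_FCJ

theorem a_REG : T_REG :=
  Pool.Agent.H50.KGR.pf_REG a_HMI a_CCE a_SBM

theorem a_GTS : T_GTS :=
  Pool.Agent.H8.KGR.pf_GTS a_PWR

theorem a_GTQ : T_GTQ :=
  Pool.Agent.H17.KGR.pf_GTQ a_PWR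

theorem a_QMD : T_QMD :=
  Pool.Agent.H1.KGR.pf_QMD a_QTY a_QGP a_EXA a_EXB a_EXC

theorem a_NPI : T_NPI :=
  Pool.Agent.H66.KGR.pf_NPI 

theorem a_QKK : T_QKK :=
  Pool.Agent.H66.KGR.pf_QKK a_NPI

theorem a_ADT : T_ADT :=
  Pool.Agent.H63.KG.ADT.pf_ADT a_CCE

theorem a_MEX : T_MEX :=
  Pool.Agent.H94.KGR.pf_MEX a_ADT

theorem a_AHM : T_AHM :=
  Pool.Agent.H23.KGR.pf_AHM a_HMI

theorem a_CLA : T_CLA :=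
  Pool.Agent.H91.KG.pf_CLA a_MEX a_ADT a_AHM

theorem a_IRR : T_IRR :=
  Pool.Agent.H42.KG.pf_IRR 

theorem a_IN0 : T_IN0 :=
  Pool.Agent.H65.KGR.pf_IN0 a_IRR a_ADT

theorem a_IND : T_IND :=
  Pool.Agent.H48.KGR.pf_IND a_IN0 a_ADT

theorem a_MNC : T_MNC :=
  Pool.Agent.H1.KGR.pf_MNC a_ADT

theorem a_ZFT : T_ZFT :=
  Pool.Agent.H39.KGR.pf_ZFT a_IND a_FCO a_MNC a_ADT a_AHM

theorem a_CLB : T_CLB :=
  Pool.Agent.H7.KGR.pf_CLB a_ZFT a_CTD a_ADT a_CCE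

theorem a_AUT : T_AUT :=
  Pool.Agent.H91.KG.pf_AUT a_FCO

theorem a_CFL : T_CFL :=
  Pool.Agent.H20.KGR.pf_CFL a_AUT

theorem a_CLI : T_CLI :=
  Pool.Agent.H52.KG.pf_CLI a_CLA a_ZFT a_CLB a_CFL

theorem a_GTO : T_GTO :=
  Pool.Agent.H52.KG.pf_GTO a_PWR

theorem a_UNI : T_UNI :=
  Pool.Agent.H51.KG.UNI.pf_UNI a_GTO a_MNC a_ADT a_AHM

theorem a_MD1 : T_MD1 :=
  Pool.Agent.H77.KGR.pf_MD1 a_ABN a_CLI a_UNI a_MNC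

theorem a_KUN : T_KUN :=
  Pool.Agent.H4.KGR.pf_KUN a_CTD a_CCE a_FCJ a_MEX a_SBM a_CLI a_ADT a_HMI

theorem a_AL1 : T_AL1 :=
  Pool.Agent.H36.KGR.pf_AL1 

theorem a_MC1 : T_MC1 :=
  Pool.Agent.H8.KGR.pf_MC1 a_KUN a_AL1 a_CTD a_CCE a_MNC a_ADT a_ORB a_HMI

theorem a_AL2 : T_AL2 :=
  Pool.Agent.H36.KGR.pf_AL2 

theorem a_MC2 : T_MC2 :=
  Pool.Agent.H8.KGR.pf_MC2 a_KUN a_AL2 a_CTD a_CCE a_MNC a_ADT a_ORB a_FCJ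

theorem a_MC3 : T_MC3 :=
  Pool.Agent.H13.KGR.pf_MC3 a_KUN a_AL2 a_MC2 a_CTD a_CCE a_MNC a_ADT a_FCJ a_SBM a_HMI

theorem a_MD2 : T_MD2 :=
  Pool.Agent.H35.KGR.pf_MD2 a_GTA a_GTS a_GTM a_FRD a_SSR a_MC1 a_MC2 a_MC3 a_MNC a_ADT a_ORB a_EXA a_EXB a_HMI a_CTD

theorem a_MOD : T_MOD :=
  Pool.Agent.H77.KGR.pf_MOD a_QMD a_QKK a_MD1 a_MD2 a_GTQ a_GTM a_HMI a_AHM a_ADT a_EXA a_EXB

theorem a_MAN : T_MAN :=
  Pool.Agent.H77.KGR.pf_MAN a_FI1 a_ABN a_REG a_GTS a_GTM a_GTQ a_MOD a_QMN a_QKK a_HMI a_FCO a_ORB a_EXA a_EXB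

theorem a_SMA : T_SMA :=
  Pool.Agent.H77.KG.pf_SMA 

theorem a_PLB : T_PLB :=
  Pool.Agent.H48.KGR.pf_PLB a_RSB

theorem a_DLB : T_DLB :=
  Pool.Agent.H77.KG.pf_DLB 

theorem a_NEL : T_NEL :=
  Pool.Agent.H83.KGR.pf_NEL 

theorem a_BRU : T_BRU :=
  Pool.Agent.H83.KGR.pf_BRU a_NEL

theorem a_UNQ : T_UNQ :=
  Pool.Agent.H11.KGR.pf_UNQ 

theorem a_SIR : T_SIR :=
  Pool.Agent.H66.KGR.pf_SIR 

theorem a_SIU : T_SIU :=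
  Pool.Agent.H36.KGR.pf_SIU a_UNQ a_SIR

theorem a_SIM : T_SIM :=
  Pool.Agent.H65.KGR.pf_SIM a_BRU a_SIU a_SIR a_NEL a_UNQ

theorem a_GSA : T_GSA :=
  Pool.Agent.H17.KGR.pf_GSA a_SMA a_PLB a_DLB a_SIM

theorem a_FNK : T_FNK :=
  Pool.Agent.H77.KGR.pf_FNK a_MAN a_GSA

end Pool.Agent.H77.KGS
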